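import Pool.Agent.X39.Near.Ax
import Pool.Agent.X39.Near.Var

/-!
# The numbers `ϖ`, `ϖ ^ ϖ`, `ϖ ^ (ϖ ^ ϖ)`, … for ALL `ϖ` with `e ^ (i ϖ)` algebraic and close to any number outside a set of
# dimension zero

The question is whether `π ^ π` is transcendental. Here `e ^ (i π) = - 1`. We consider ALL logarithms `i ϖ` of algebraic
numbers `α` instead, `α` in a given number field and close to a number outside ONE set `E` of Hausdorff dimension `0` (for all
heights of the towers, number fields, degrees and scales): the numbers `log ϖ`, `ϖ`, `ϖ ^ ϖ`, `ϖ ^ (ϖ ^ ϖ)`, … satisfy no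
relation of bounded degree with coefficients of polynomial size, even approximately; the coefficients may be polynomials in
arbitrary constants `ξ_1, …, ξ_g` fixed in advance (for instance `π`, `π ^ π`, `e`).

Proof: the functions `u`, `e ^ (i e ^ u)`, `w_1 = e ^ u`, `w_2 = e ^ (u w_1)`, `w_3 = e ^ (u w_2)`, … are algebraically
independent (Ax); in the variable `t = e ^ (i e ^ u)` the levels of the library give, on compact sets, at most `C T ^ ε`
exceptional `t` of height `T`, for every `ε > 0`, and so a limsup set of dimension `0` (`Pool.Agent.X39.Near`).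
-/

set_option autoImplicit false

open MvPolynomial NumberField Filter Asymptotics

namespace Pool.Agent.Results.MP_7fde5c_nt.ApproximationsOfAllNumbers

open Pool.Agent.X39.Near (Size Dep)

/-- `e ^ (i ϖ)` for `ϖ = e ^ u` -/
noncomputable def ex (u : ℂ) : ℂ := Complex.exp (Complex.I * Complex.exp u)

/-- the numbers `ϖ`, `ϖ ^ ϖ`, `ϖ ^ (ϖ ^ ϖ)`, … for `log ϖ = u` -/
noncomputable def tower : ℕ → ℂ → ℂ
  | 0, u => Complex.exp u
  | k + 1, u => Complex.exp (tower k u * u)

/-- the numbers `log ϖ`, `ϖ`, `ϖ ^ ϖ`, `ϖ ^ (ϖ ^ ϖ)`, …, for `log ϖ = u` -/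
noncomputable def value {n : ℕ} (u : ℂ) : Option (Fin (n + 1)) → ℂ
  | none => u
  | some k => tower (k : ℕ) u

/-- There is no relation between the numbers `v`: (1) in the sense of `Dep`, (2) for integral polynomials. -/
def NoRelation {J : Type} {g : ℕ} (v : J → ℂ) (ξ : Fin g → ℂ) (F : Type) [Field F] [NumberField F] (ι : F →+* ℂ)
    (d A : ℕ) (B T : ℝ) : Prop :=
  ¬ Dep v ξ F ι d A B T ∧
  ∀ P : MvPolynomial J ℤ, P ≠ 0 → (∀ j, P.degreeOf j ≤ d) →
    (∀ e, |((P.coeff e : ℤ) : ℝ)| ≤ T ^ A) → T ^ (-B) < ‖aeval v P‖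

/-- the exponents -/
noncomputable def wt : ℕ → ℂ → ℂ
  | 0, u => u
  | k + 1, u => tower k u * u

theorem tower_eq (k : ℕ) (u : ℂ) : tower k u = Complex.exp (wt k u) := by
  cases k <;> rfl

theorem wt_succ (k : ℕ) (u : ℂ) : wt (k + 1) u = Complex.exp (wt k u) * u := by
  rw [← tower_eq]
  rfl

theorem wt_an (k : ℕ) (s : ℂ) : AnalyticAt ℂ (wt k) s := by
  induction k with
  | zero => exact analyticAt_id
  | succ k ih =>
    have h : wt (k + 1) = fun s => Complex.exp (wt k s) * s := funext fun s => wt_succ k s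
    rw [h]
    exact ih.cexp.mul analyticAt_id

theorem tower_an (k : ℕ) (s : ℂ) : AnalyticAt ℂ (tower k) s := by
  have h : tower k = fun s => Complex.exp (wt k s) := funext fun s => tower_eq k s
  rw [h]
  exact (wt_an k s).cexp

/-- the real functions -/
noncomputable def rt : ℕ → ℝ → ℝ
  | 0, x => x
  | k + 1, x => Real.exp (rt k x) * x

theorem rt_wt (n : ℕ) (x : ℝ) : wt n (x : ℂ) = ((rt n x : ℝ) : ℂ) := by
  induction n with
  | zero => rfl
  | succ n ih =>
    rw [wt_succ, ih]
    show _ = ((Real.exp (rt n x) * x : ℝ) : ℂ)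
    push_cast
    rfl

theorem rt_top (n : ℕ) : Tendsto (rt n) atTop atTop := by
  induction n with
  | zero => exact tendsto_id
  | succ n ih =>
    have h : rt (n + 1) = fun x => Real.exp (rt n x) * x := rfl
    rw [h]
    exact (Real.tendsto_exp_atTop.comp ih).atTop_mul_atTop₀ tendsto_id

theorem rt_lt {k n : ℕ} (h : k < n) : rt k =o[atTop] rt n := by
  induction n with
  | zero => exact absurd h (Nat.not_lt_zero _)
  | succ n ih =>
    have h1 : rt n =o[atTop] rt (n + 1) := by
      have h2 : (fun x : ℝ => x) =o[atTop] Real.exp := by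
        have := Real.isLittleO_pow_exp_atTop (n := 1)
        simpa using this
      have h3 : rt n =o[atTop] (fun x => Real.exp (rt n x)) := h2.comp_tendsto (rt_top n)
      refine h3.trans_isBigO ?_
      refine IsBigO.of_bound 1 ?_
      filter_upwards [eventually_ge_atTop 1] with x hx
      show ‖Real.exp (rt n x)‖ ≤ 1 * ‖Real.exp (rt n x) * x‖
      rw [norm_mul, one_mul]
      have h4 : (1 : ℝ) ≤ ‖x‖ := by rw [Real.norm_eq_abs]; exact hx.trans (le_abs_self x)
      exact le_mul_of_one_le_right (norm_nonneg _) h4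
    rcases Nat.lt_succ_iff_lt_or_eq.1 h with h4 | h4
    · exact (ih h4).trans h1
    · rw [h4]
      exact h1

theorem rt_ind (n : ℕ) : ∀ (M : Fin n → ℤ) (c : ℝ), (∀ x : ℝ, ∑ k, (M k : ℝ) * rt (k : ℕ) x = c) → M = 0 := by
  induction n with
  | zero =>
    intro M c _
    funext k
    exact k.elim0
  | succ n ih =>
    intro M c h
    have h0 : M (Fin.last n) = 0 := by
      have h1 : (fun x : ℝ => (M (Fin.last n) : ℝ) * rt n x) =o[atTop] rt n := by
        have e : (fun x : ℝ => (M (Fin.last n) : ℝ) * rt n x) = fun x =>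
            c - ∑ k : Fin n, (M k.castSucc : ℝ) * rt (k : ℕ) x := by
          funext x
          have := h x
          rw [Fin.sum_univ_castSucc] at this
          simp only [Fin.val_castSucc, Fin.val_last] at this
          linarith
        rw [e]
        refine IsLittleO.sub ?_ ?_
        · exact isLittleO_const_left.2 (Or.inr (tendsto_norm_atTop_atTop.comp (rt_top n)))
        · exact IsLittleO.fun_sum fun k _ => (rt_lt (Fin.is_lt k)).const_mul_left _
      by_contra hne
      have h2 : (fun x : ℝ => rt n x) =o[atTop] rt n :=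
        (isLittleO_const_mul_left_iff (c := (M (Fin.last n) : ℝ)) (by exact_mod_cast hne)).1 h1
      have h3 : ∀ᶠ x in atTop, rt n x ≠ 0 := (rt_top n).eventually_ne_atTop 0
      have h4 := h2.tendsto_div_nhds_zero
      have h5 : Tendsto (fun x => rt n x / rt n x) atTop (nhds 1) :=
        tendsto_const_nhds.congr' (by
          filter_upwards [h3] with x hx
          rw [div_self hx])
      exact zero_ne_one (tendsto_nhds_unique h4 h5)
    have h1 := ih (fun k => M k.castSucc) c (fun x => by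
      have := h x
      rw [Fin.sum_univ_castSucc, h0] at this
      simpa using this)
    funext k
    refine Fin.lastCases h0 (fun k => congrFun h1 k) k

/-- the linear forms -/
noncomputable def lf {n : ℕ} (u : ℂ) : Option (Fin (n + 1)) → ℂ
  | none => Complex.I * Complex.exp u
  | some k => wt (k : ℕ) u

theorem lf_an {n : ℕ} (k : Option (Fin (n + 1))) (u : ℂ) : AnalyticAt ℂ (fun u => lf u k) u := by
  rcases k with _ | k
  · exact analyticAt_const.mul analyticAt_id.cexp
  · exact wt_an _ u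

theorem lf_ind {n : ℕ} (M : Option (Fin (n + 1)) → ℤ) (c : ℂ) (h : ∀ u : ℂ, ∑ k, (M k : ℂ) * lf u k = c) : M = 0 := by
  have h1 : ∀ x : ℝ, (((M none : ℝ) * Real.exp x : ℝ) : ℂ) * Complex.I +
      ((∑ k : Fin (n + 1), (M (some k) : ℝ) * rt (k : ℕ) x : ℝ) : ℂ) = c := by
    intro x
    rw [← h (x : ℂ), Fintype.sum_option]
    have e : ∀ k : Fin (n + 1), lf (n := n) (x : ℂ) (some k) = ((rt (k : ℕ) x : ℝ) : ℂ) := fun k => rt_wt _ _
    simp only [e]
    show _ = (M none : ℂ) * (Complex.I * Complex.exp x) + _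
    push_cast
    ring
  have h2 : ∀ x : ℝ, (M none : ℝ) * Real.exp x = c.im := by
    intro x
    rw [← h1 x, Complex.add_im, Complex.ofReal_im, add_zero, Complex.mul_im, Complex.I_re, Complex.I_im,
      Complex.ofReal_re, mul_one, mul_zero, add_zero]
  have h3 : ∀ x : ℝ, ∑ k : Fin (n + 1), (M (some k) : ℝ) * rt (k : ℕ) x = c.re := by
    intro x
    rw [← h1 x, Complex.add_re, Complex.ofReal_re, Complex.mul_re, Complex.I_re, Complex.I_im,
      Complex.ofReal_im]
    ring
  have h4 := rt_ind (n + 1) (fun k => M (some k)) c.re h3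
  funext k
  rcases k with _ | k
  · have h5 := h2 0
    have h6 := h2 1
    rw [← h5, Real.exp_zero] at h6
    have h7 : (M none : ℝ) * (Real.exp 1 - 1) = 0 := by linear_combination h6
    rcases mul_eq_zero.1 h7 with h8 | h8
    · exact_mod_cast h8
    · have := Real.add_one_lt_exp (x := 1) one_ne_zero
      linarith
  · exact congrFun h4 k

theorem loc (n : ℕ) (t : ℂ) :
    Pool.Agent.Y124.LocInd (fun (k : Option (Fin (n + 1))) u => Complex.exp (lf u k)) t := by
  classical
  set e : Option (Fin (n + 1)) ≃ Fin (Fintype.card (Option (Fin (n + 1)))) := Fintype.equivFin _ with he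
  refine Pool.Agent.X39.Near.loc_exp (U := Set.univ) (l := fun k u => lf (n := n) u (e.symm k)) ?_ isOpen_univ
    isPreconnected_univ Set.univ_nonempty (fun k u _ => lf_an _ u) ?_ (fun k u _ => (lf_an k u).cexp) rfl
    (G := {Complex.I}) (Set.countable_singleton _) ?_ ?_ t (Set.mem_univ _)
  · exact Fintype.card_pos_iff.2 ⟨none⟩
  · intro M c hM
    have h1 := lf_ind (n := n) (fun k => M (e k)) c (fun u => by
      rw [← hM u (Set.mem_univ _), ← Equiv.sum_comp e]
      exact Finset.sum_congr rfl fun k _ => by simp only [Equiv.symm_apply_apply])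
    funext k
    have := congrFun h1 (e.symm k)
    simpa using this
  · intro F hF z _ k
    set W := Pool.Agent.Y685.clo F (insert z (Set.range fun k : Option (Fin (n + 1)) => Complex.exp (lf z k))) with hW
    have hz : z ∈ W := Pool.Agent.Y685.subset_clo (Set.mem_insert _ _)
    have hy : ∀ k : Fin (n + 1), Complex.exp (wt (k : ℕ) z) ∈ W := fun k =>
      Pool.Agent.Y685.subset_clo (Or.inr ⟨some k, rfl⟩)
    have hI : Complex.I ∈ W := Pool.Agent.Y685.base_clo (hF rfl)
    have key : ∀ k, lf (n := n) z k ∈ W := by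
      intro k
      rcases k with _ | ⟨_ | k, hk⟩
      · exact mul_mem hI (hy 0)
      · exact hz
      · show wt (k + 1) z ∈ W
        rw [wt_succ]
        exact mul_mem (hy ⟨k, by omega⟩) hz
    exact key (e.symm k)
  · intro F hF z _ k
    exact Pool.Agent.Y685.subset_clo (Or.inr ⟨e.symm k, rfl⟩)

/-- the exchange of the variables -/
def sw {n : ℕ} : Option (Option (Fin (n + 1))) → Option (Option (Fin (n + 1)))
  | none => some none
  | some none => none
  | some (some k) => some (some k)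

theorem sw_inj {n : ℕ} : Function.Injective (sw (n := n)) := by
  have h : Function.LeftInverse (sw (n := n)) sw := by
    rintro (_ | _ | k) <;> rfl
  exact h.injective

theorem sw_eval {n : ℕ} (u : ℂ) (o : Option (Option (Fin (n + 1)))) :
    (sw o).elim u (fun k => Complex.exp (lf u k)) = o.elim (ex u) fun k => value u k := by
  rcases o with _ | _ | k
  · rfl
  · rfl
  · exact (tower_eq _ _).symm

theorem ex_der (u : ℂ) : HasDerivAt ex (Complex.exp (Complex.I * Complex.exp u) * (Complex.I * Complex.exp u)) u :=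
  ((Complex.hasDerivAt_exp u).const_mul Complex.I).cexp

theorem ex_an (u : ℂ) : AnalyticAt ℂ ex u := (analyticAt_const.mul analyticAt_id.cexp).cexp

theorem ex_ne (u : ℂ) : deriv ex u ≠ 0 := by
  rw [(ex_der u).deriv]
  exact mul_ne_zero (Complex.exp_ne_zero _) (mul_ne_zero Complex.I_ne_zero (Complex.exp_ne_zero _))

theorem value_an {n : ℕ} (k : Option (Fin (n + 1))) (u : ℂ) : AnalyticAt ℂ (fun u => value u k) u := by
  rcases k with _ | k
  · exact analyticAt_id
  · exact tower_an _ u

/-- balls -/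
noncomputable def bl (i : ℕ × ℕ) : Set ℂ := Metric.ball (TopologicalSpace.denseSeq ℂ i.1) (1 / ((i.2 : ℝ) + 1))

/-- **Theorem.** Let `ξ_1, …, ξ_g` be complex numbers. There is a set `E` of complex numbers of Hausdorff dimension `0` such
that for all `u₀` with `ex u₀ ∉ E` there is `δ > 0` such that for all `n`, all number fields `F` with an embedding `ι` in
`ℂ`, all `d`, `A` and `ω > 0` there are `B`, `T₁` such that for all `T ≥ T₁`, all `α ∈ F`, quotients of integers with
conjugates at most `T`, with `|ι α - ex u₀| ≤ T ^ (-ω)`, and all `u` with `ex u = ι α` and `|u - u₀| < δ`: there is no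
relation between the `n + 2` numbers `u = log ϖ`, `ϖ`, `ϖ ^ ϖ`, `ϖ ^ (ϖ ^ ϖ)`, …. -/
theorem result {g : ℕ} (ξ : Fin g → ℂ) :
    ∃ E : Set ℂ, dimH E = 0 ∧ ∀ u₀ : ℂ, ex u₀ ∉ E → ∃ δ : ℝ, 0 < δ ∧
      ∀ (n : ℕ) (F : Type) [Field F] [NumberField F] (ι : F →+* ℂ) (d A : ℕ) (ω : ℝ), 0 < ω →
        ∃ B T₁ : ℝ, ∀ T : ℝ, T₁ ≤ T → ∀ α : F, Size F T α → ‖ι α - ex u₀‖ ≤ T ^ (-ω) →
          ∀ u : ℂ, ex u = ι α → ‖u - u₀‖ < δ → NoRelation (value (n := n) u) ξ F ι d A B T := by
  classical
  have H : ∀ i : ℕ × (ℕ × ℕ), ∃ E : Set ℂ, dimH E = 0 ∧ (Set.InjOn ex (bl i.2) → ∀ s₀ ∈ bl i.2, ex s₀ ∉ E →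
      ∀ (F : Type) [Field F] [NumberField F] (ι : F →+* ℂ) (d A : ℕ) (ω : ℝ), 0 < ω → ∃ B T₁ : ℝ, ∀ T : ℝ, T₁ ≤ T →
        ∀ t : F, Size F T t → ‖ι t - ex s₀‖ ≤ T ^ (-ω) → ∀ s ∈ bl i.2, ex s = ι t →
          ¬ Dep (value (n := i.1) s) ξ F ι d A B T) := by
    intro i
    by_cases hI : Set.InjOn ex (bl i.2)
    · obtain ⟨E, h1, h2⟩ := Pool.Agent.X39.Near.near_inj (V := bl i.2) Metric.isOpen_ball
        (φ := ex) (fun z _ => ex_an z) hI (fun z _ => ex_ne z)
        (fun (k : Option (Fin (i.1 + 1))) z => value (n := i.1) z k) (fun k z _ => value_an k z)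
        (fun s₀ _ P hP => by
          apply rename_injective _ (sw_inj (n := i.1))
          rw [map_zero]
          apply loc i.1 s₀
          filter_upwards [hP] with s hs
          rw [eval_rename, ← hs]
          congr 2
          funext o
          exact sw_eval s o) ξ
      exact ⟨E, h1, fun _ => h2⟩
    · exact ⟨∅, dimH_empty, fun a => absurd a hI⟩
  choose E hE0 hE using H
  refine ⟨⋃ i, E i, by rw [dimH_iUnion]; simp [hE0], fun u₀ hx => ?_⟩
  obtain ⟨a, b, hab, -, hinj⟩ := Pool.Agent.X39.Near.exists_ball_inj isOpen_univ (φ := ex) (s₀ := u₀)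
    (Set.mem_univ _) (ex_an u₀) (ex_ne u₀)
  obtain ⟨δ, hδ, hδb⟩ := Metric.isOpen_iff.1 (Metric.isOpen_ball (x := TopologicalSpace.denseSeq ℂ a)
    (ε := 1 / ((b : ℝ) + 1))) u₀ hab
  refine ⟨δ, hδ, fun n F _ _ ι d A ω hω => ?_⟩
  obtain ⟨B, T₁, h2⟩ := hE (n, (a, b)) hinj u₀ hab (fun h => hx (Set.mem_iUnion.2 ⟨_, h⟩)) F ι d A ω hω
  refine ⟨B, max T₁ 1, fun T hT t ht htx p hp hpp => ?_⟩
  have hpb : p ∈ bl (a, b) := hδb (by rwa [Metric.mem_ball, dist_eq_norm])
  have h4 : ¬ Dep (value (n := n) p) ξ F ι d A B T :=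
    h2 T ((le_max_left _ _).trans hT) t ht htx p hpb hp
  have hT0 : 0 < T := lt_of_lt_of_le one_pos ((le_max_right _ _).trans hT)
  exact ⟨h4, fun P hP hPd hPA => Pool.Agent.X39.Near.int_of_not_dep h4 hT0 P hP hPd fun e => by
      exact_mod_cast hPA e⟩

end Pool.Agent.Results.MP_7fde5c_nt.ApproximationsOfAllNumbers
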